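import Mathlib

/-!
Families of functions which agree infinitely often with every function, and nonmeager subsets of
the Cantor space (Bartoszyński).
-/

set_option autoImplicit false

open Set Filter Topology

namespace Pool.Agent.H364B

/-- Every `g : ℕ → ℕ` agrees infinitely often with some member of `Y`. -/
def Catches (Y : Set (ℕ → ℕ)) : Prop :=
  ∀ g : ℕ → ℕ, ∃ y ∈ Y, ∃ᶠ n in atTop, y n = g n

section guess

variable {C : Type}

/-- the first entry of `l` whose position is not in `U` -/
def pick (l : List (ℕ × C)) (U : Finset ℕ) : Option (ℕ × C) :=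
  l.find? fun p => decide (p.1 ∉ U)

theorem pick_spec {l : List (ℕ × C)} {U : Finset ℕ} {p : ℕ × C} (h : pick l U = some p) :
    p ∈ l ∧ p.1 ∉ U := by
  refine ⟨List.mem_of_find?_eq_some h, ?_⟩
  have := List.find?_some h
  simpa using this

theorem exists_pick {l : List (ℕ × C)} {U : Finset ℕ} (h : ∃ p ∈ l, p.1 ∉ U) :
    ∃ p, pick l U = some p := by
  by_contra hcon
  push Not at hcon
  have h1 : pick l U = none := by
    cases h2 : pick l U with
    | none => rfl
    | some p => exact absurd h2 (hcon p)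
  obtain ⟨p, hp, hpU⟩ := h
  have := List.find?_eq_none.1 h1 p hp
  simp [hpU] at this

/-- the positions used before stage `j` -/
def used (φ : ℕ → List (ℕ × C)) : ℕ → Finset ℕ
  | 0 => ∅
  | j + 1 => used φ j ∪ (pick (φ j) (used φ j)).elim ∅ fun p => {p.1}

theorem used_card (φ : ℕ → List (ℕ × C)) (j : ℕ) : (used φ j).card ≤ j := by
  induction j with
  | zero => simp [used]
  | succ j ih =>
    have h1 : ((pick (φ j) (used φ j)).elim (∅ : Finset ℕ) fun p => {p.1}).card ≤ 1 := by
      cases pick (φ j) (used φ j) with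
      | none => simp
      | some p => simp
    exact (Finset.card_union_le _ _).trans (by omega)

theorem used_mono (φ : ℕ → List (ℕ × C)) : Monotone (used φ) :=
  monotone_nat_of_le_succ fun _ => Finset.subset_union_left

theorem pick_mem_used {φ : ℕ → List (ℕ × C)} {j : ℕ} {p : ℕ × C}
    (h : pick (φ j) (used φ j) = some p) : p.1 ∈ used φ (j + 1) := by
  show p.1 ∈ used φ j ∪ (pick (φ j) (used φ j)).elim ∅ fun p => {p.1}
  rw [h]
  simp

theorem pick_unique {φ : ℕ → List (ℕ × C)} {j j' : ℕ} {p p' : ℕ × C}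
    (h : pick (φ j) (used φ j) = some p) (h' : pick (φ j') (used φ j') = some p')
    (he : p.1 = p'.1) : j = j' := by
  rcases lt_trichotomy j j' with h1 | h1 | h1
  · exact absurd (used_mono φ (Nat.succ_le_of_lt h1) (pick_mem_used h)) (he ▸ (pick_spec h').2)
  · exact h1
  · exact absurd (used_mono φ (Nat.succ_le_of_lt h1) (pick_mem_used h')) (he ▸ (pick_spec h).2)

open Classical in
/-- the function assembled from the picked entries -/
noncomputable def guess [Inhabited C] (φ : ℕ → List (ℕ × C)) (n : ℕ) : C :=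
  if h : ∃ c j, pick (φ j) (used φ j) = some (n, c) then Classical.choose h else default

theorem guess_eq [Inhabited C] {φ : ℕ → List (ℕ × C)} {j n : ℕ} {c : C}
    (h : pick (φ j) (used φ j) = some (n, c)) : guess φ n = c := by
  have hex : ∃ c j, pick (φ j) (used φ j) = some (n, c) := ⟨c, j, h⟩
  have h1 : guess φ n = Classical.choose hex := dif_pos hex
  obtain ⟨j', hj'⟩ := Classical.choose_spec hex
  have hj : j = j' := pick_unique h hj' rfl
  subst hj
  rw [h1]
  rw [h] at hj'
  have := Option.some.inj hj'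
  exact (congrArg Prod.snd this).symm

/-- guessing infinitely often on a given infinite set -/
theorem guess_catch [Inhabited C] {σ : ℕ → List (ℕ × C)} (hσ : Function.Surjective σ)
    {Y : Set (ℕ → ℕ)} (hY : Catches Y) {D : Set ℕ} (hD : D.Infinite) (z : ℕ → C) :
    ∃ y ∈ Y, {n | n ∈ D ∧ guess (fun j => σ (y j)) n = z n}.Infinite := by
  let f : ℕ ↪ D := Set.Infinite.natEmbedding D hD
  let d : ℕ → ℕ := fun t => ((f t : D) : ℕ)
  have hdD : ∀ t, d t ∈ D := fun t => (f t).2
  have hdi : Function.Injective d := fun s t h => f.injective (Subtype.ext h)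
  choose g hg using fun j => hσ ((List.range (j + 1)).map fun t => (d t, z (d t)))
  obtain ⟨y, hyY, hy⟩ := hY g
  refine ⟨y, hyY, ?_⟩
  have hy' := Nat.frequently_atTop_iff_infinite.1 hy
  set φ : ℕ → List (ℕ × C) := fun j => σ (y j) with hφ
  have hpick : ∀ j, y j = g j → ∃ t, pick (φ j) (used φ j) = some (d t, z (d t)) := by
    intro j hj
    have h1 : φ j = (List.range (j + 1)).map fun t => (d t, z (d t)) := by
      rw [hφ]
      show σ (y j) = _
      rw [hj, hg]
    have h2 : ∃ p ∈ φ j, p.1 ∉ used φ j := by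
      by_contra hcon
      push Not at hcon
      have h3 : (Finset.range (j + 1)).image d ⊆ used φ j := by
        intro n hn
        obtain ⟨t, ht, rfl⟩ := Finset.mem_image.1 hn
        refine hcon (d t, z (d t)) ?_
        rw [h1]
        exact List.mem_map.2 ⟨t, List.mem_range.2 (Finset.mem_range.1 ht), rfl⟩
      have h4 := Finset.card_le_card h3
      rw [Finset.card_image_of_injective _ hdi, Finset.card_range] at h4
      have h5 := used_card φ j
      omega
    obtain ⟨p, hp⟩ := exists_pick h2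
    have h3 := (pick_spec hp).1
    rw [h1] at h3
    obtain ⟨t, _, rfl⟩ := List.mem_map.1 h3
    exact ⟨t, hp⟩
  refine Set.infinite_of_injOn_mapsTo
    (f := fun j => (pick (φ j) (used φ j)).elim 0 Prod.fst) ?_ ?_ hy'
  · intro j hj j' hj' he
    obtain ⟨t, ht⟩ := hpick j hj
    obtain ⟨t', ht'⟩ := hpick j' hj'
    simp only [ht, ht', Option.elim_some] at he
    exact pick_unique ht ht' he
  · intro j hj
    obtain ⟨t, ht⟩ := hpick j hj
    have he : (pick (φ j) (used φ j)).elim 0 Prod.fst = d t := by rw [ht]; rfl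
    show (pick (φ j) (used φ j)).elim 0 Prod.fst ∈ D ∧
      guess φ ((pick (φ j) (used φ j)).elim 0 Prod.fst) =
        z ((pick (φ j) (used φ j)).elim 0 Prod.fst)
    rw [he]
    exact ⟨hdD t, guess_eq ht⟩

end guess

/-- the sums of the first values -/
def ms (y : ℕ → ℕ) (k : ℕ) : ℕ := ∑ j ∈ Finset.range k, (y j + 1)

theorem ms_succ (y : ℕ → ℕ) (k : ℕ) : ms y (k + 1) = ms y k + (y k + 1) :=
  Finset.sum_range_succ _ _

theorem ms_strictMono (y : ℕ → ℕ) : StrictMono (ms y) :=
  strictMono_nat_of_lt_succ fun k => by rw [ms_succ]; omega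

/-- long gaps -/
theorem long_gaps {Y : Set (ℕ → ℕ)} (hY : Catches Y) (β : ℕ → ℕ) :
    ∃ y ∈ Y, {k | β (ms y k) ≤ ms y (k + 1)}.Infinite := by
  let B : ℕ → ℕ := fun n => n + ∑ i ∈ Finset.range (n + 1), β i
  have hB1 : Monotone B := fun a b hab =>
    Nat.add_le_add hab (Finset.sum_le_sum_of_subset (Finset.range_mono (by omega)))
  have hB2 : ∀ n, β n ≤ B n := fun n =>
    (Finset.single_le_sum (f := β) (fun _ _ => Nat.zero_le _) (Finset.mem_range.2 (Nat.lt_succ_self n))).trans
      (Nat.le_add_left _ _)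
  have hB3 : id ≤ B := fun n => Nat.le_add_right _ _
  obtain ⟨y, hyY, hy⟩ := hY fun k => B^[k + 1] (k + 1) + 1
  refine ⟨y, hyY, ?_⟩
  intro hfin
  obtain ⟨K, hK⟩ := hfin.bddAbove
  have h1 : ∀ k, K < k → ms y (k + 1) ≤ B (ms y k) := by
    intro k hk
    by_contra hcon
    have h2 : k ∈ {k | β (ms y k) ≤ ms y (k + 1)} := (hB2 _).trans (not_le.1 hcon).le
    exact absurd (hK h2) (not_le.2 hk)
  have h2 : ∀ i, ms y (K + 1 + i) ≤ B^[i] (ms y (K + 1)) := by
    intro i
    induction i with
    | zero => exact le_rfl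
    | succ i ih =>
      rw [Function.iterate_succ_apply']
      exact (h1 (K + 1 + i) (by omega)).trans (hB1 ih)
  obtain ⟨k, hk, hyk⟩ := frequently_atTop.1 hy (max (K + 1) (ms y (K + 1)))
  have hk1 : K + 1 ≤ k := (le_max_left _ _).trans hk
  have hk2 : ms y (K + 1) ≤ k := (le_max_right _ _).trans hk
  have h3 := h2 (k + 1 - (K + 1))
  rw [show K + 1 + (k + 1 - (K + 1)) = k + 1 by omega] at h3
  have h4 : B^[k + 1 - (K + 1)] (ms y (K + 1)) ≤ B^[k + 1] (k + 1) :=
    ((hB1.iterate _) (hk2.trans (Nat.le_succ k))).trans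
      (Function.monotone_iterate_of_id_le hB3 (by omega : k + 1 - (K + 1) ≤ k + 1) (k + 1))
  have h5 : y k ≤ ms y (k + 1) := by rw [ms_succ]; omega
  have h6 : y k = B^[k + 1] (k + 1) + 1 := hyk
  omega


/-! ### Nonmeager sets -/

abbrev CS : Type := ℕ → Bool

theorem exists_prefix {U : Set CS} (hU : IsOpen U) {x : CS} (hx : x ∈ U) :
    ∃ N : ℕ, ∀ y : CS, (∀ i < N, y i = x i) → y ∈ U := by
  obtain ⟨I, u, hu, hIu⟩ := isOpen_pi_iff.1 hU x hx
  refine ⟨I.sup id + 1, fun y hy => hIu ?_⟩
  intro i hi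
  have hi' : i ≤ I.sup id := Finset.le_sup (f := id) hi
  rw [hy i (by omega)]
  exact (hu i hi).2

theorem isOpen_prefix (x : CS) (N : ℕ) : IsOpen {y : CS | ∀ i < N, y i = x i} := by
  have : {y : CS | ∀ i < N, y i = x i} = ⋂ i ∈ Finset.range N, {y : CS | y i = x i} := by
    ext y; simp
  rw [this]
  exact isOpen_biInter_finset fun i _ =>
    (isOpen_discrete {x i}).preimage (continuous_apply i : Continuous fun y : CS => y i)

/-- a block which forces membership in a dense open set -/
theorem exists_block {U : Set CS} (hU : IsOpen U) (hd : Dense U) (n : ℕ) :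
    ∃ (b : ℕ) (w : CS), ∀ x : CS, (∀ i, n ≤ i → i < b → x i = w i) → x ∈ U := by
  have key : ∀ L : List CS, ∃ (b : ℕ) (w : CS), ∀ p ∈ L, ∀ x : CS, (∀ i < n, x i = p i) →
      (∀ i, n ≤ i → i < b → x i = w i) → x ∈ U := by
    intro L
    induction L with
    | nil => exact ⟨n, fun _ => false, fun p hp => absurd hp (by simp)⟩
    | cons p L ih =>
      obtain ⟨b, w, hbw⟩ := ih
      let x₀ : CS := fun i => if i < n then p i else w i
      obtain ⟨x₁, hx₁, hx₁U⟩ := hd.inter_open_nonempty _ (isOpen_prefix x₀ (max n b)) ⟨x₀, fun _ _ => rfl⟩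
      obtain ⟨N, hN⟩ := exists_prefix hU hx₁U
      refine ⟨max N (max n b), x₁, ?_⟩
      intro q hq x hx1 hx2
      have hlow : ∀ i, i < n → x₁ i = p i := by
        intro i hi
        rw [hx₁ i (lt_of_lt_of_le hi (le_max_left _ _))]
        exact if_pos hi
      have hmid : ∀ i, n ≤ i → i < b → x₁ i = w i := by
        intro i hi hib
        rw [hx₁ i (lt_of_lt_of_le hib (le_max_right _ _))]
        exact if_neg (not_lt.2 hi)
      rcases List.mem_cons.1 hq with rfl | hq
      · refine hN x fun i hi => ?_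
        by_cases hin : i < n
        · rw [hx1 i hin, hlow i hin]
        · exact hx2 i (not_lt.1 hin) (lt_of_lt_of_le hi (le_max_left _ _))
      · refine hbw q hq x hx1 fun i hi hib => ?_
        rw [hx2 i hi (lt_of_lt_of_le hib ((le_max_right _ _).trans (le_max_right _ _))), hmid i hi hib]
  obtain ⟨b, w, h⟩ := key ((Finset.univ : Finset (Fin n → Bool)).toList.map fun q i =>
    if h : i < n then q ⟨i, h⟩ else false)
  refine ⟨b, w, fun x hx => h (fun i => if h : i < n then x i else false) ?_ x ?_ hx⟩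
  · refine List.mem_map.2 ⟨fun i => x i, by simp, rfl⟩
  · intro i hi
    simp [hi]

/-- meager sets of the Cantor space -/
theorem meagre_blocks {S : Set CS} (hS : IsMeagre S) :
    ∃ (β : ℕ → ℕ) (z : ℕ → CS), ∀ x ∈ S, ∀ᶠ n in atTop, ¬ ∀ i, n ≤ i → i < β n → x i = z n i := by
  obtain ⟨T, hTo, hTd, hTc, hT⟩ := mem_residual_iff.1 hS
  have hne : (insert univ T).Nonempty := insert_nonempty _ _
  obtain ⟨O, hO⟩ := (hTc.insert univ).exists_eq_range hne
  have hOo : ∀ k, IsOpen (O k) := by
    intro k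
    have : O k ∈ insert univ T := hO ▸ mem_range_self k
    rcases this with h | h
    · rw [h]; exact isOpen_univ
    · exact hTo _ h
  have hOd : ∀ k, Dense (O k) := by
    intro k
    have : O k ∈ insert univ T := hO ▸ mem_range_self k
    rcases this with h | h
    · rw [h]; exact dense_univ
    · exact hTd _ h
  have hV : ∀ n : ℕ, IsOpen (⋂ k ∈ Finset.range n, O k) ∧ Dense (⋂ k ∈ Finset.range n, O k) := by
    intro n
    induction n with
    | zero => simp
    | succ n ih =>
      rw [Finset.range_add_one, Finset.set_biInter_insert]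
      exact ⟨(hOo n).inter ih.1, (hOd n).inter_of_isOpen_left ih.2 (hOo n)⟩
  choose β z hβ using fun n => exists_block (hV n).1 (hV n).2 n
  refine ⟨β, z, fun x hx => ?_⟩
  by_contra hcon
  rw [not_eventually] at hcon
  have hxall : x ∈ ⋂₀ T := by
    intro t ht
    have htr : t ∈ range O := hO ▸ mem_insert_of_mem _ ht
    obtain ⟨k, rfl⟩ := htr
    obtain ⟨n, hn, hxn⟩ := frequently_atTop.1 hcon (k + 1)
    have := hβ n x (not_not.1 hxn)
    simp only [mem_iInter] at this
    exact this k (Finset.mem_range.2 (by omega))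
  exact hT hxall hx

/-- the point assembled from a partition and guesses -/
noncomputable def asm (m : ℕ → ℕ) (X : ℕ → Finset ℕ) : CS := by
  classical
  exact fun i => decide (∃ k, m k ≤ i ∧ i < m (k + 1) ∧ i ∈ X k)

theorem asm_eq {m : ℕ → ℕ} (hm : StrictMono m) {X : ℕ → Finset ℕ} {k : ℕ} {w : CS}
    (h : X k = (Finset.Ico (m k) (m (k + 1))).filter fun i => w i = true) (i : ℕ) (hi : m k ≤ i)
    (hi' : i < m (k + 1)) : asm m X i = w i := by
  classical
  have h1 : (∃ k, m k ≤ i ∧ i < m (k + 1) ∧ i ∈ X k) ↔ w i = true := by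
    constructor
    · rintro ⟨l, hl1, hl2, hl3⟩
      have : l = k := by
        rcases lt_trichotomy l k with h' | h' | h'
        · have : m (l + 1) ≤ m k := hm.monotone h'
          omega
        · exact h'
        · have : m (k + 1) ≤ m l := hm.monotone h'
          omega
      subst this
      rw [h] at hl3
      exact (Finset.mem_filter.1 hl3).2
    · intro hw
      refine ⟨k, hi, hi', ?_⟩
      rw [h]
      exact Finset.mem_filter.2 ⟨Finset.mem_Ico.2 ⟨hi, hi'⟩, hw⟩
  show decide (∃ k, m k ≤ i ∧ i < m (k + 1) ∧ i ∈ X k) = w i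
  by_cases hw : w i = true
  · rw [hw, decide_eq_true_eq]
    exact h1.2 hw
  · have hw' : w i = false := by simpa using hw
    rw [hw', decide_eq_false_iff_not]
    exact fun h2 => hw (h1.1 h2)

/-- **Bartoszyński**: a family which catches every function gives a nonmeager set. -/
theorem exists_nonmeagre {Y : Set (ℕ → ℕ)} (hY : Catches Y) :
    ∃ f : (ℕ → ℕ) → (ℕ → ℕ) → CS, ¬ IsMeagre {x | ∃ y ∈ Y, ∃ y' ∈ Y, x = f y y'} := by
  obtain ⟨σ, hσ⟩ := exists_surjective_nat (List (ℕ × Finset ℕ))
  refine ⟨fun y y' => asm (ms y) (guess fun j => σ (y' j)), fun hmea => ?_⟩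
  obtain ⟨β, z, hβ⟩ := meagre_blocks hmea
  obtain ⟨y, hyY, hy⟩ := long_gaps hY β
  obtain ⟨y', hyY', hy'⟩ := guess_catch hσ hY hy fun k =>
    (Finset.Ico (ms y k) (ms y (k + 1))).filter fun i => z (ms y k) i = true
  have h1 := hβ _ ⟨y, hyY, y', hyY', rfl⟩
  obtain ⟨n₀, hn₀⟩ := eventually_atTop.1 h1
  obtain ⟨k, ⟨hk1, hk2⟩, hk3⟩ := hy'.exists_gt n₀
  have h3 : n₀ ≤ ms y k := hk3.le.trans ((ms_strictMono y).id_le k)
  refine hn₀ (ms y k) h3 fun i hi hi' => ?_
  exact asm_eq (ms_strictMono y) hk2 i hi (lt_of_lt_of_le hi' hk1)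

/-- the first `true` of the row `n` of `x` (or `0`) -/
noncomputable def row (x : CS) (n : ℕ) : ℕ := by
  classical
  exact if h : ∃ m, x (Nat.pair n m) = true then Nat.find h else 0

/-- a nonmeager set gives a family which catches every function -/
theorem catches_of_nonmeagre {S : Set CS} (hS : ¬ IsMeagre S) : Catches (row '' S) := by
  classical
  intro g
  by_contra hcon
  push Not at hcon
  refine hS ?_
  -- the open dense sets
  let O : ℕ → Set CS := fun M => ⋃ n : ℕ, ⋃ _ : M ≤ n,
    {x : CS | ∀ i < Nat.pair n (g n) + 1, x i = (fun i => decide (i = Nat.pair n (g n))) i ∨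
      (Nat.unpair i).1 ≠ n}
  have hrow : ∀ (x : CS) (n : ℕ), (∀ i < Nat.pair n (g n) + 1,
      x i = (fun i => decide (i = Nat.pair n (g n))) i ∨ (Nat.unpair i).1 ≠ n) → row x n = g n := by
    intro x n hx
    have h1 : x (Nat.pair n (g n)) = true := by
      rcases hx (Nat.pair n (g n)) (Nat.lt_succ_self _) with h | h
      · simpa using h
      · simp at h
    have hex : ∃ m, x (Nat.pair n m) = true := ⟨_, h1⟩
    have h2 : row x n = Nat.find hex := by
      unfold row
      rw [dif_pos hex]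
    rw [h2, Nat.find_eq_iff]
    refine ⟨h1, fun m hm => ?_⟩
    have h3 : Nat.pair n m < Nat.pair n (g n) := Nat.pair_lt_pair_right n hm
    rcases hx (Nat.pair n m) (by omega) with h | h
    · rw [h]
      simp [h3.ne]
    · simp at h
  have hOo : ∀ M, IsOpen (O M) := by
    intro M
    refine isOpen_iUnion fun n => isOpen_iUnion fun _ => ?_
    have : {x : CS | ∀ i < Nat.pair n (g n) + 1, x i = (fun i => decide (i = Nat.pair n (g n))) i ∨
        (Nat.unpair i).1 ≠ n} = ⋂ i ∈ Finset.range (Nat.pair n (g n) + 1),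
        {x : CS | x i = (fun i => decide (i = Nat.pair n (g n))) i ∨ (Nat.unpair i).1 ≠ n} := by
      ext x; simp
    rw [this]
    exact isOpen_biInter_finset fun i _ =>
      (isOpen_discrete {b : Bool | b = (fun i => decide (i = Nat.pair n (g n))) i ∨
        (Nat.unpair i).1 ≠ n}).preimage (continuous_apply i : Continuous fun y : CS => y i)
  have hOd : ∀ M, Dense (O M) := by
    intro M
    rw [dense_iff_inter_open]
    rintro U hU ⟨x, hx⟩
    obtain ⟨N, hN⟩ := exists_prefix hU hx
    let n : ℕ := max M N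
    let y : CS := fun i => if (Nat.unpair i).1 = n then decide (i = Nat.pair n (g n)) else x i
    refine ⟨y, hN y fun i hi => ?_, ?_⟩
    · have h1 : (Nat.unpair i).1 ≠ n := by
        have h2 : (Nat.unpair i).1 ≤ i := Nat.unpair_left_le i
        have h3 : N ≤ n := le_max_right _ _
        omega
      exact if_neg h1
    · refine mem_iUnion.2 ⟨n, mem_iUnion.2 ⟨le_max_left _ _, fun i _ => ?_⟩⟩
      by_cases hi : (Nat.unpair i).1 = n
      · exact Or.inl (if_pos hi)
      · exact Or.inr hi
  have hres : (⋂ M, O M) ∈ residual CS := by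
    rw [mem_residual_iff]
    refine ⟨range O, ?_, ?_, countable_range O, ?_⟩
    · rintro _ ⟨M, rfl⟩; exact hOo M
    · rintro _ ⟨M, rfl⟩; exact hOd M
    · intro x hx
      rw [mem_iInter]
      exact fun M => hx _ ⟨M, rfl⟩
  show Sᶜ ∈ residual CS
  refine mem_of_superset hres fun x hx hxS => ?_
  have h1 := hcon _ (mem_image_of_mem row hxS)
  obtain ⟨M, hM⟩ := eventually_atTop.1 h1
  obtain ⟨n, hn⟩ := mem_iUnion.1 (mem_iInter.1 hx M)
  obtain ⟨hMn, hn⟩ := mem_iUnion.1 hn
  exact hM n hMn (hrow x n hn)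

end Pool.Agent.H364B
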